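import Pool.Agent.Work.MP_4eca41_an.Final

/-!
# MP_4eca41_an: convex Lusin approximation of class C^2 in the plane

Every convex function on the open unit disc coincides with a convex function of class `C^2` (even on the whole plane)
outside a set of arbitrarily small measure.  So the negated form of Q1 holds, with `n = 2`.
-/

set_option autoImplicit false

open Set MeasureTheory

namespace Pool.Agent.Results.MP_4eca41_an.ConvexLusin

theorem result :
    ∀ f : EuclideanSpace ℝ (Fin 2) → ℝ, ConvexOn ℝ (Metric.ball 0 1) f → ∀ ε : ℝ, 0 < ε →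
      ∃ g : EuclideanSpace ℝ (Fin 2) → ℝ, ConvexOn ℝ univ g ∧ ContDiff ℝ 2 g ∧
        volume {x ∈ Metric.ball (0 : EuclideanSpace ℝ (Fin 2)) 1 | f x ≠ g x} <
          ENNReal.ofReal ε :=
  fun f hf ε hε => Pool.Agent.MP_4eca41.Fin.main f hf ε hε

end Pool.Agent.Results.MP_4eca41_an.ConvexLusin
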